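import Pool.Agent.SAQ.ArrDefs

/-!
# Merging agents that have no common partner

Definitions for the theorem that stable allocations with two agents on one side are ARRIVAL-hard.
-/

namespace SAT

open SAQ Finset

section

variable {M W B : Type} [DecidableEq M]

/-- The entries of `y` that belong to the agent `i`; the others are replaced by zero. -/
def own (κ : M → B) (e : B → W → M) (i : M) (y : W → ℤ) : W → ℤ :=
  fun j => if e (κ i) j = i then y j else 0

/-- The bundle of `j` in the market before merging: the units of the class `b` are units of the
agent `e b j`. -/
def spread (κ : M → B) (e : B → W → M) (j : W) (y : B → ℤ) : M → ℤ :=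
  fun i => if e (κ i) j = i then y (κ i) else 0

/-- The value function of the class `b`: the sum of the values of its agents. -/
noncomputable def mM [Fintype M] [DecidableEq B] (κ : M → B) (e : B → W → M)
    (fM : M → (W → ℤ) → WithBot ℝ) (b : B) (y : W → ℤ) : WithBot ℝ :=
  ∑ i ∈ univ.filter (fun i => κ i = b), fM i (own κ e i y)

/-- The value function of `j` after merging. -/
noncomputable def mW (κ : M → B) (e : B → W → M) (fW : W → (M → ℤ) → WithBot ℝ) (j : W)
    (y : B → ℤ) : WithBot ℝ :=
  fW j (spread κ e j y)

end

section

variable {V : Type}

/-- The class of a vertex of the subdivided graph: `false` for the original vertices, `true` for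
the subdividing vertices. -/
def cls : V ⊕ V × Bool → Bool := Sum.elim (fun _ => false) (fun _ => true)

/-- The end of an arc of the subdivided graph in each class. -/
def endp (G : SG V) (b : Bool) (a : (V ⊕ V × Bool) × Bool) : V ⊕ V × Bool :=
  match a with
  | (Sum.inl v, i) => if b then Sum.inr (v, i) else Sum.inl v
  | (Sum.inr (v, j), _) => if b then Sum.inr (v, j) else Sum.inl (G.s j v)

variable [Fintype V] [DecidableEq V]

/-- The value functions of the two agents of `M`. -/
noncomputable def gM (G : SG V) (L : ℕ) (b : Bool) : ((V ⊕ V × Bool) × Bool → ℤ) → WithBot ℝ :=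
  mM cls (endp G) (fV G.sub L) b

/-- The value functions of the agents of `W`, the arcs of the subdivided graph. -/
noncomputable def gW (G : SG V) (L : ℕ) (a : (V ⊕ V × Bool) × Bool) :
    (Bool → ℤ) → WithBot ℝ :=
  mW cls (endp G) (fA G.sub L) a

end

end SAT
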