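import Pool.Agent.SAT.Stab
import Pool.Agent.SAQ.ArrStable

/-!
# The market of a switch graph with two agents on one side
-/

namespace SAT

open SAQ Finset

section Old

variable {V : Type} [Fintype V] [DecidableEq V] {G : SG V} {L : ℕ}

/-- The market of the subdivided switch graph before merging. -/
theorem old_condA (hL1 : (1 : ℤ) ≤ L) (v : V ⊕ V × Bool) :
    CondA (fV G.sub L v) ∧ MNatConcave (fV G.sub L v) := by
  by_cases hv : G.sub.Live v
  · rw [fV_live hv]
    refine ⟨sep_condA _ (fun a => ?_) ?_, sep_mnat _ _ (fun a k => ?_)⟩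
    · split_ifs <;> omega
    · split_ifs <;> omega
    · split_ifs <;> push_cast <;> nlinarith
  · rw [fV_dead hv]
    refine ⟨sep_condA _ (fun a => ?_) (by positivity), sep_mnat _ _ (fun a k => ?_)⟩
    · split_ifs <;> omega
    · push_cast; linarith

theorem old_condA' (a : (V ⊕ V × Bool) × Bool) :
    CondA (fA G.sub L a) ∧ MNatConcave (fA G.sub L a) := by
  rw [fA]
  refine ⟨sep_condA _ (fun a => ?_) (by positivity), sep_mnat _ _ (fun a k => ?_)⟩
  · split_ifs <;> omega
  · split_ifs <;> push_cast <;> linarith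

theorem old_le (v : V ⊕ V × Bool) {y : (V ⊕ V × Bool) × Bool → ℤ} (hy : fV G.sub L v y ≠ ⊥)
    (a : (V ⊕ V × Bool) × Bool) : y a ≤ L := by
  by_cases hv : G.sub.Live v
  · rw [fV_live hv, sep_nb] at hy
    refine (hy.1 a).2.trans ?_
    split_ifs <;> omega
  · rw [fV_dead hv, sep_nb] at hy
    refine (hy.1 a).2.trans ?_
    split_ifs <;> omega

theorem old_arrives (hod : G.o ≠ G.d) (hL : L = 2 ^ (3 * Fintype.card V + 1))
    {x : V ⊕ V × Bool → (V ⊕ V × Bool) × Bool → ℤ}
    (hx : Stable (fV G.sub L) (fA G.sub L) x) :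
    G.Arrives ↔ ∑ a, x (Sum.inl G.d) a = 1 := by
  classical
  have hloop : ∀ v i, G.sub.s i v ≠ v := by
    intro v i
    rcases v with v | ⟨v, j⟩ <;> simp [SG.sub]
  have hcard : 2 ^ (Fintype.card (V ⊕ V × Bool) + 1) ≤ L := by
    rw [hL]
    refine Nat.pow_le_pow_right (by norm_num) ?_
    simp only [Fintype.card_sum, Fintype.card_prod, Fintype.card_bool]
    omega
  have hflow := flow_of_stable hloop hcard hx
  have hod' : G.sub.o ≠ G.sub.d := by
    intro h
    exact hod (Sum.inl.inj h)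
  have h1 := arrives_iff hod' hflow
  rw [← arrives_sub, h1]
  have h2 := row_sum hloop hx (Sum.inl G.d)
  have h3 : ∀ i, x (Sum.inl G.d) (Sum.inl G.d, i) = 0 := fun i =>
    x_zero hx (fun h => h.1.1 rfl)
  rw [h2, h3, h3, inflow]
  simp only [add_zero]
  rfl

end Old

variable {V : Type} [Fintype V] [DecidableEq V] {G : SG V} {L : ℕ}

omit [Fintype V] [DecidableEq V] in
theorem cls_endp (b : Bool) (a : (V ⊕ V × Bool) × Bool) : cls (endp G b a) = b := by
  rcases a with ⟨v | ⟨v, j⟩, i⟩ <;> cases b <;> rfl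

omit [Fintype V] [DecidableEq V] in
theorem endp_tail (a : (V ⊕ V × Bool) × Bool) : endp G (cls a.1) a = a.1 := by
  rcases a with ⟨v | ⟨v, j⟩, i⟩ <;> rfl

omit [Fintype V] [DecidableEq V] in
theorem endp_head (a : (V ⊕ V × Bool) × Bool) :
    endp G (cls (G.sub.s a.2 a.1)) a = G.sub.s a.2 a.1 := by
  rcases a with ⟨v | ⟨v, j⟩, i⟩ <;> rfl

theorem supM (m : V ⊕ V × Bool) (y : (V ⊕ V × Bool) × Bool → ℤ) (hy : fV G.sub L m y ≠ ⊥)
    (a : (V ⊕ V × Bool) × Bool) (ha : endp G (cls m) a ≠ m) : y a = 0 := by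
  classical
  have h1 : a.1 ≠ m := by
    rintro rfl
    exact ha (endp_tail a)
  have h2 : G.sub.s a.2 a.1 ≠ m := by
    rintro rfl
    exact ha (endp_head a)
  by_cases hv : G.sub.Live m
  · rw [fV_live hv, sep_nb] at hy
    have h3 := hy.1 a
    rw [if_neg (by tauto)] at h3
    omega
  · rw [fV_dead hv, sep_nb] at hy
    have h3 := hy.1 a
    rw [if_neg (by tauto)] at h3
    omega

theorem supW (a : (V ⊕ V × Bool) × Bool) (y : V ⊕ V × Bool → ℤ) (hy : fA G.sub L a y ≠ ⊥)
    (m : V ⊕ V × Bool) (ha : endp G (cls m) a ≠ m) : y m = 0 := by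
  classical
  have h1 : m ≠ a.1 := by
    rintro rfl
    exact ha (endp_tail a)
  have h2 : m ≠ G.sub.s a.2 a.1 := by
    rintro rfl
    exact ha (endp_head a)
  rw [fA, sep_nb] at hy
  have h3 := hy.1 m
  rw [if_neg (by tauto)] at h3
  omega

theorem gM_le (b : Bool) {y : (V ⊕ V × Bool) × Bool → ℤ} (hy : gM G L b y ≠ ⊥)
    (a : (V ⊕ V × Bool) × Bool) : y a ≤ L := by
  have h1 := mM_ne_bot.1 hy (endp G b a) (cls_endp b a)
  have h2 := old_le _ h1 a
  rw [own_self cls_endp] at h2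
  exact h2

theorem arrives_two (hod : G.o ≠ G.d) (hL : L = 2 ^ (3 * Fintype.card V + 1))
    {x : Bool → (V ⊕ V × Bool) × Bool → ℤ} (hx : Stable (gM G L) (gW G L) x) :
    G.Arrives ↔ ∑ a ∈ univ.filter (fun a => endp G false a = Sum.inl G.d), x false a = 1 := by
  rw [old_arrives hod hL (stable_unmerge cls_endp supM supW hx), Finset.sum_filter]
  rfl

end SAT
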