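import Pool.Agent.SAT.Defs

/-!
# Merging agents: M♮-concavity, condition (A), stability
-/

namespace SAT

open SAQ Finset

variable {M W B : Type} [Fintype M] [Fintype W] [DecidableEq M] [DecidableEq W] [DecidableEq B]
  {κ : M → B} {e : B → W → M} {fM : M → (W → ℤ) → WithBot ℝ} {fW : W → (M → ℤ) → WithBot ℝ}

omit [Fintype M] [Fintype W] [DecidableEq W] [DecidableEq B] in
theorem own_eq {i : M} {y : W → ℤ} (h : ∀ j, e (κ i) j ≠ i → y j = 0) : own κ e i y = y := by
  funext j
  unfold own
  split_ifs with h1
  · rfl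
  · exact (h j h1).symm

omit [Fintype W] [DecidableEq W] in
theorem mM_ne_bot {b : B} {y : W → ℤ} :
    mM κ e fM b y ≠ ⊥ ↔ ∀ i, κ i = b → fM i (own κ e i y) ≠ ⊥ := by
  unfold mM
  rw [Ne, WithBot.sum_eq_bot_iff]
  constructor
  · intro h i hi hb
    exact h ⟨i, by rw [mem_filter]; exact ⟨mem_univ _, hi⟩, hb⟩
  · rintro h ⟨i, hi, hb⟩
    rw [mem_filter] at hi
    exact h i hi.2 hb

omit [Fintype M] [Fintype W] [DecidableEq W] [DecidableEq B] in
theorem own_self (hκ : ∀ b j, κ (e b j) = b) (b : B) (j : W) (y : W → ℤ) :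
    own κ e (e b j) y j = y j := by
  unfold own
  rw [hκ, if_pos rfl]

omit [Fintype M] [Fintype W] [DecidableEq W] [DecidableEq B] in
theorem spread_self (hκ : ∀ b j, κ (e b j) = b) (b : B) (j : W) (y : B → ℤ) :
    spread κ e j y (e b j) = y b := by
  unfold spread
  rw [hκ, if_pos rfl]

omit [Fintype W] [DecidableEq W] in
theorem mM_condA (hκ : ∀ b j, κ (e b j) = b) (h : ∀ i, CondA (fM i)) (b : B) :
    CondA (mM κ e fM b) where
  bdd := by
    choose N hN using fun i => (h i).bdd
    refine ⟨∑ i, N i, fun y hy v => ?_⟩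
    rw [mM_ne_bot] at hy
    have h1 := hN (e b v) _ (hy (e b v) (hκ b v)) v
    rw [own_self hκ] at h1
    have h2 : N (e b v) ≤ ∑ i, N i :=
      Finset.single_le_sum (fun i _ => Nat.zero_le _) (mem_univ (e b v))
    exact h1.trans (by exact_mod_cast h2)
  zero_mem := by
    rw [mM_ne_bot]
    intro i _
    have h0 : own κ e i 0 = 0 := by
      funext j
      unfold own
      split_ifs <;> rfl
    rw [h0]
    exact (h i).zero_mem
  nonneg := by
    intro y hy v
    rw [mM_ne_bot] at hy
    have h1 := (h (e b v)).nonneg _ (hy (e b v) (hκ b v)) v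
    rw [own_self hκ] at h1
    exact h1
  hered := by
    intro y y' hy h0 hle
    rw [mM_ne_bot] at hy ⊢
    intro i hi
    refine (h i).hered _ _ (hy i hi) (fun j => ?_) (fun j => ?_)
    · unfold own
      split_ifs
      · exact h0 j
      · exact le_rfl
    · unfold own
      split_ifs
      · exact hle j
      · exact le_rfl

omit [Fintype W] in
theorem mM_mnat (hκ : ∀ b j, κ (e b j) = b) (h : ∀ i, MNatConcave (fM i)) (b : B) :
    MNatConcave (mM κ e fM b) := by
  intro x y hx hy u hu
  rw [mM_ne_bot] at hx hy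
  obtain ⟨v, hv, hle⟩ := h (e b u) _ _ (hx _ (hκ b u)) (hy _ (hκ b u)) u
    (by rw [own_self hκ, own_self hκ]; exact hu)
  have hv' : ∀ w, v = some w → e b w = e b u ∧ x w < y w := by
    intro w hw
    have h1 := hv w hw
    unfold own at h1
    rw [hκ] at h1
    split_ifs at h1 with h2
    · exact ⟨h2, h1⟩
    · omega
  have hown : ∀ (t : W → ℤ) (c : ℤ), own κ e (e b u) (t - c • ev (some u) + c • ev v) =
      own κ e (e b u) t - c • ev (some u) + c • ev v := by
    intro t c
    funext j
    simp only [own, hκ, Pi.add_apply, Pi.sub_apply, Pi.smul_apply]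
    split_ifs with h1
    · rfl
    · have h2 : (ev (some u) : W → ℤ) j = 0 := by
        unfold ev
        rw [if_neg]
        intro h3
        exact h1 (by rw [Option.some.inj h3])
      have h4 : (ev v : W → ℤ) j = 0 := by
        unfold ev
        rw [if_neg]
        intro h3
        exact h1 (hv' j h3).1
      rw [h2, h4]
      simp
  have hoth : ∀ (t : W → ℤ) (c : ℤ) (i : M), κ i = b → i ≠ e b u →
      own κ e i (t - c • ev (some u) + c • ev v) = own κ e i t := by
    intro t c i hi hne
    funext j
    simp only [own, hi, Pi.add_apply, Pi.sub_apply, Pi.smul_apply]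
    split_ifs with h1
    · have h2 : (ev (some u) : W → ℤ) j = 0 := by
        unfold ev
        rw [if_neg]
        intro h3
        exact hne (by rw [← h1, Option.some.inj h3])
      have h4 : (ev v : W → ℤ) j = 0 := by
        unfold ev
        rw [if_neg]
        intro h3
        exact hne (by rw [← h1, (hv' j h3).1])
      rw [h2, h4]
      simp
    · rfl
  refine ⟨v, fun w hw => (hv' w hw).2, ?_⟩
  unfold mM
  rw [← Finset.sum_add_distrib, ← Finset.sum_add_distrib]
  apply Finset.sum_le_sum
  intro i hi
  rw [mem_filter] at hi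
  have e1 : x - ev (some u) + ev v = x - (1 : ℤ) • ev (some u) + (1 : ℤ) • ev v := by simp
  have e2 : y + ev (some u) - ev v = y - (-1 : ℤ) • ev (some u) + (-1 : ℤ) • ev v := by
    simp only [neg_smul, one_smul, sub_neg_eq_add]
    rfl
  rw [e1, e2]
  by_cases hie : i = e b u
  · subst hie
    rw [hown, hown]
    have e3 : own κ e (e b u) x - (1 : ℤ) • ev (some u) + (1 : ℤ) • ev v =
        own κ e (e b u) x - ev (some u) + ev v := by simp
    have e4 : own κ e (e b u) y - (-1 : ℤ) • ev (some u) + (-1 : ℤ) • ev v =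
        own κ e (e b u) y + ev (some u) - ev v := by
      simp only [neg_smul, one_smul, sub_neg_eq_add]
      rfl
    rw [e3, e4]
    exact hle
  · rw [hoth _ _ i hi.2 hie, hoth _ _ i hi.2 hie]

omit [Fintype M] [Fintype W] [DecidableEq W] [DecidableEq B] in
theorem mW_condA (hκ : ∀ b j, κ (e b j) = b) {j : W} (h : CondA (fW j)) :
    CondA (mW κ e fW j) where
  bdd := by
    obtain ⟨N, hN⟩ := h.bdd
    refine ⟨N, fun y hy b => ?_⟩
    have h1 := hN _ hy (e b j)
    rw [spread_self hκ] at h1
    exact h1
  zero_mem := by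
    have h0 : spread κ e j 0 = 0 := by
      funext i
      unfold spread
      split_ifs <;> rfl
    unfold mW
    rw [h0]
    exact h.zero_mem
  nonneg := by
    intro y hy b
    have h1 := h.nonneg _ hy (e b j)
    rw [spread_self hκ] at h1
    exact h1
  hered := by
    intro y y' hy h0 hle
    refine h.hered _ _ hy (fun i => ?_) (fun i => ?_)
    · unfold spread
      split_ifs
      · exact h0 _
      · exact le_rfl
    · unfold spread
      split_ifs
      · exact hle _
      · exact le_rfl

omit [Fintype M] [Fintype W] [DecidableEq W] in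
theorem mW_mnat (hκ : ∀ b j, κ (e b j) = b) {j : W} (h : MNatConcave (fW j)) :
    MNatConcave (mW κ e fW j) := by
  intro x y hx hy u hu
  obtain ⟨v', hv, hle⟩ := h _ _ hx hy (e u j) (by rw [spread_self hκ, spread_self hκ]; exact hu)
  have hv' : ∀ i, v' = some i → e (κ i) j = i ∧ x (κ i) < y (κ i) := by
    intro i hi
    have h1 := hv i hi
    unfold spread at h1
    split_ifs at h1 with h2
    · exact ⟨h2, h1⟩
    · omega
  have hsp : ∀ (t : B → ℤ) (c : ℤ), spread κ e j (t - c • ev (some u) + c • ev (v'.map κ)) =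
      spread κ e j t - c • ev (some (e u j)) + c • ev v' := by
    intro t c
    funext i
    simp only [spread, Pi.add_apply, Pi.sub_apply, Pi.smul_apply]
    have a1 : e (κ i) j = i → (ev (some u) : B → ℤ) (κ i) = (ev (some (e u j)) : M → ℤ) i := by
      intro h1
      unfold ev
      by_cases h2 : u = κ i
      · rw [if_pos (by rw [h2]), if_pos (by rw [h2, h1])]
      · rw [if_neg (fun h3 => h2 (Option.some.inj h3)), if_neg]
        intro h3
        exact h2 (by rw [← Option.some.inj h3, hκ])
    have a2 : e (κ i) j = i → (ev (v'.map κ) : B → ℤ) (κ i) = (ev v' : M → ℤ) i := by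
      intro h1
      unfold ev
      by_cases h2 : v' = some i
      · rw [if_pos (by rw [h2]; rfl), if_pos h2]
      · rw [if_neg, if_neg h2]
        intro h3
        rw [Option.map_eq_some_iff] at h3
        obtain ⟨i', h4, h5⟩ := h3
        have h6 := (hv' i' h4).1
        rw [h5, h1] at h6
        rw [← h6] at h4
        exact h2 h4
    have a3 : e (κ i) j ≠ i → (ev (some (e u j)) : M → ℤ) i = 0 := by
      intro h1
      unfold ev
      rw [if_neg]
      intro h3
      have h4 := Option.some.inj h3
      exact h1 (by rw [← h4, hκ])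
    have a4 : e (κ i) j ≠ i → (ev v' : M → ℤ) i = 0 := by
      intro h1
      unfold ev
      rw [if_neg]
      intro h3
      exact h1 (hv' i h3).1
    by_cases h1 : e (κ i) j = i
    · rw [if_pos h1, if_pos h1, a1 h1, a2 h1]
    · rw [if_neg h1, if_neg h1, a3 h1, a4 h1]
      simp
  refine ⟨v'.map κ, fun w hw => ?_, ?_⟩
  · rw [Option.map_eq_some_iff] at hw
    obtain ⟨i, h1, h2⟩ := hw
    rw [← h2]
    exact (hv' i h1).2
  · unfold mW at *
    have e1 : x - ev (some u) + ev (v'.map κ) =
        x - (1 : ℤ) • ev (some u) + (1 : ℤ) • ev (v'.map κ) := by simp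
    have e2 : y + ev (some u) - ev (v'.map κ) =
        y - (-1 : ℤ) • ev (some u) + (-1 : ℤ) • ev (v'.map κ) := by
      simp only [neg_smul, one_smul, sub_neg_eq_add]
      rfl
    rw [e1, e2, hsp, hsp]
    have e3 : spread κ e j x - (1 : ℤ) • ev (some (e u j)) + (1 : ℤ) • ev v' =
        spread κ e j x - ev (some (e u j)) + ev v' := by simp
    have e4 : spread κ e j y - (-1 : ℤ) • ev (some (e u j)) + (-1 : ℤ) • ev v' =
        spread κ e j y + ev (some (e u j)) - ev v' := by
      simp only [neg_smul, one_smul, sub_neg_eq_add]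
      rfl
    rw [e3, e4]
    exact hle

end SAT
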