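import Pool.Agent.SAT.Merge

/-!
# Stable allocations of the merged market are stable allocations of the market
-/

namespace SAT

open SAQ Finset

variable {M W B : Type} [Fintype M] [Fintype W] [DecidableEq M] [DecidableEq W] [DecidableEq B]
  {κ : M → B} {e : B → W → M} {fM : M → (W → ℤ) → WithBot ℝ} {fW : W → (M → ℤ) → WithBot ℝ}

/-- The allocation before merging. -/
def unmerge (κ : M → B) (e : B → W → M) (x : B → W → ℤ) (i : M) (j : W) : ℤ :=
  if e (κ i) j = i then x (κ i) j else 0

omit [Fintype M] [Fintype W] [DecidableEq W] [DecidableEq B] in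
theorem unmerge_row (x : B → W → ℤ) (i : M) : unmerge κ e x i = own κ e i (x (κ i)) := rfl

omit [Fintype M] [Fintype W] [DecidableEq W] [DecidableEq B] in
theorem unmerge_col (x : B → W → ℤ) (j : W) :
    colW (unmerge κ e x) j = spread κ e j (colW x j) := rfl

omit [Fintype W] [DecidableEq W] in
/-- Changing the entries of one agent only. -/
theorem lt_merge {b : B} {X Y : W → ℤ} {i : M} (hi : κ i = b) (hX : mM κ e fM b X ≠ ⊥)
    (hlt : fM i (own κ e i X) < fM i (own κ e i Y))
    (hoth : ∀ i', κ i' = b → i' ≠ i → own κ e i' Y = own κ e i' X) :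
    mM κ e fM b X < mM κ e fM b Y := by
  have hmem : i ∈ univ.filter (fun i => κ i = b) := by
    rw [mem_filter]
    exact ⟨mem_univ _, hi⟩
  have hrest : ∑ i' ∈ (univ.filter (fun i => κ i = b)).erase i, fM i' (own κ e i' Y) =
      ∑ i' ∈ (univ.filter (fun i => κ i = b)).erase i, fM i' (own κ e i' X) := by
    apply Finset.sum_congr rfl
    intro i' hi'
    rw [mem_erase, mem_filter] at hi'
    rw [hoth i' hi'.2.2 hi'.1]
  have hne : ∑ i' ∈ (univ.filter (fun i => κ i = b)).erase i, fM i' (own κ e i' X) ≠ ⊥ := by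
    rw [Ne, WithBot.sum_eq_bot_iff]
    rintro ⟨i', hi', hb⟩
    rw [mem_erase, mem_filter] at hi'
    exact (mM_ne_bot.1 hX) i' hi'.2.2 hb
  unfold mM
  rw [← Finset.add_sum_erase _ _ hmem, ← Finset.add_sum_erase _ _ hmem, hrest]
  exact WithBot.add_lt_add_right hne hlt

omit [Fintype W] in
theorem stable_unmerge (hκ : ∀ b j, κ (e b j) = b)
    (sM : ∀ i y, fM i y ≠ ⊥ → ∀ j, e (κ i) j ≠ i → y j = 0)
    (sW : ∀ j y, fW j y ≠ ⊥ → ∀ i, e (κ i) j ≠ i → y i = 0)
    {x : B → W → ℤ} (hx : Stable (mM κ e fM) (mW κ e fW) x) :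
    Stable fM fW (unmerge κ e x) := by
  obtain ⟨⟨f1, f2⟩, hst⟩ := hx
  -- a bundle of one agent, completed by the rest of its class
  have hY : ∀ (i : M) (y : W → ℤ), fM i y ≠ ⊥ →
      own κ e i (fun j => if e (κ i) j = i then y j else x (κ i) j) = y ∧
      ∀ i', κ i' = κ i → i' ≠ i →
        own κ e i' (fun j => if e (κ i) j = i then y j else x (κ i) j) =
          own κ e i' (x (κ i)) := by
    intro i y hy
    refine ⟨?_, fun i' hi' hne => ?_⟩
    · funext j
      unfold own
      by_cases h1 : e (κ i) j = i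
      · rw [if_pos h1]
        exact if_pos h1
      · rw [if_neg h1, sM i y hy j h1]
    · funext j
      unfold own
      rw [hi']
      by_cases h1 : e (κ i) j = i'
      · rw [if_pos h1, if_pos h1]
        exact if_neg (fun h2 => hne (h1.symm.trans h2))
      · rw [if_neg h1, if_neg h1]
  have hltM : ∀ (i : M) (y : W → ℤ), fM i (unmerge κ e x i) < fM i y →
      mM κ e fM (κ i) (x (κ i)) <
        mM κ e fM (κ i) (fun j => if e (κ i) j = i then y j else x (κ i) j) := by
    intro i y hlt
    have hy : fM i y ≠ ⊥ := ne_bot_of_gt hlt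
    refine lt_merge rfl (f1 _) ?_ (hY i y hy).2
    rw [(hY i y hy).1, ← unmerge_row]
    exact hlt
  have hspread : ∀ (j : W) (y : M → ℤ), fW j y ≠ ⊥ →
      spread κ e j (fun b => y (e b j)) = y := by
    intro j y hy
    funext i
    unfold spread
    by_cases h1 : e (κ i) j = i
    · rw [if_pos h1]
      simp only [h1]
    · rw [if_neg h1, sW j y hy i h1]
  have hltW : ∀ (j : W) (y : M → ℤ), fW j (colW (unmerge κ e x) j) < fW j y →
      mW κ e fW j (colW x j) < mW κ e fW j (fun b => y (e b j)) := by
    intro j y hlt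
    unfold mW
    rw [hspread j y (ne_bot_of_gt hlt), ← unmerge_col]
    exact hlt
  have hxe : ∀ b j, unmerge κ e x (e b j) j = x b j := by
    intro b j
    unfold unmerge
    rw [hκ, if_pos rfl]
  have caseA : ∀ i y, y ≤ unmerge κ e x i → fM i (unmerge κ e x i) < fM i y → False := by
    intro i y hle hlt
    refine hst (Or.inl ⟨κ i, _, fun j => ?_, hltM i y hlt⟩)
    simp only
    split_ifs with h1
    · have := hle j
      unfold unmerge at this
      rw [if_pos h1] at this
      exact this
    · exact le_rfl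
  have caseB : ∀ j (y : M → ℤ), y ≤ colW (unmerge κ e x) j →
      fW j (colW (unmerge κ e x) j) < fW j y → False := by
    intro j y hle hlt
    refine hst (Or.inr (Or.inl ⟨j, _, fun b => ?_, hltW j y hlt⟩))
    have := hle (e b j)
    rw [colW, hxe] at this
    exact this
  refine ⟨⟨fun i => (mM_ne_bot.1 (f1 (κ i))) i rfl, fun j => f2 j⟩, ?_⟩
  rintro (⟨i, y, hle, hlt⟩ | ⟨j, y, hle, hlt⟩ | ⟨i, j, y', y'', h1, h2, h3, h4, h5⟩)
  · exact caseA i y hle hlt
  · exact caseB j y hle hlt
  · by_cases hij : e (κ i) j = i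
    · refine hst (Or.inr (Or.inr ⟨κ i, j, _, _, hltM i y' h1, hltW j y'' h2, fun j' hj' => ?_,
        fun b hb => ?_, ?_⟩))
      · split_ifs with h6
        · have := h3 j' hj'
          unfold unmerge at this
          rw [if_pos h6] at this
          exact this
        · exact le_rfl
      · have hne : e b j ≠ i := by
          intro h6
          exact hb (by rw [← h6, hκ])
        have := h4 (e b j) hne
        rw [hxe] at this
        exact this
      · simp only [hij, if_true]
        exact h5
    · refine caseA i y' (fun j' => ?_) h1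
      by_cases hj : j' = j
      · subst hj
        rw [sM i y' (ne_bot_of_gt h1) j' hij]
        unfold unmerge
        rw [if_neg hij]
      · exact h3 j' hj

end SAT
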